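import Pool.Agent.V8H77.VT.Pure
import Pool.Agent.V8H94.VT.Defs

/-!
# Classes of positive coniveau which are dominated by abelian varieties
-/

set_option autoImplicit false

namespace Pool.Agent.V8H94.TW

open Module Polynomial TensorProduct
open Pool.Agent.V8H94.CT Pool.Agent.V8H94.TC Pool.Agent.V8H94.VT Pool.Agent.V8H77.VT

variable {p : ℕ} [Fact p.Prime] {Ω : Type} [Field Ω] [CharZero Ω]

theorem isPure_div {m i c : ℕ} (hc : 2 * c ≤ i) {a : Ω} (ha : IsPure p (m * i) a)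
    (hint : IsIntegral ℤ (a / (p : Ω) ^ (m * c))) :
    IsPure p (m * (i - 2 * c)) (a / (p : Ω) ^ (m * c)) := by
  have hp : (p : Ω) ≠ 0 := Nat.cast_ne_zero.2 (Fact.out : p.Prime).ne_zero
  obtain ⟨y, hy⟩ := exists_lift (isAlgebraic_of_isIntegral hint)
  have hyi : IsIntegral ℤ (y : Ω) := by rw [hy]; exact hint
  rw [← hy, isPure_coe]
  refine ⟨hyi, fun σ => ?_⟩
  have hx : ((y * (p : algebraicClosure ℚ Ω) ^ (m * c) : algebraicClosure ℚ Ω) : Ω) = a := by
    push_cast
    rw [hy, div_mul_cancel₀ _ (pow_ne_zero _ hp)]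
  have h1 := ha
  rw [← hx, isPure_coe] at h1
  have h2 := h1.2 σ
  rw [map_mul, map_pow, map_natCast, norm_mul, norm_pow, Complex.norm_natCast, mul_pow, ← pow_mul] at h2
  have hp0 : (0 : ℝ) < p := by exact_mod_cast (Fact.out : p.Prime).pos
  have e : (p : ℝ) ^ (m * i) = (p : ℝ) ^ (m * (i - 2 * c)) * (p : ℝ) ^ (m * c * 2) := by
    rw [← pow_add]
    congr 1
    calc m * i = m * ((i - 2 * c) + 2 * c) := by rw [Nat.sub_add_cancel hc]
      _ = _ := by ring
  rw [e] at h2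
  exact mul_right_cancel₀ (pow_ne_zero _ hp0.ne') h2

/-- The Tate conjecture for the classes in `H ^ i (X) ⊗ H ^ (i - 2 c) (B)`. -/
def TateAt {T : Cohomology p Ω} (Z : Cycles T) (X : T.V) (i c : ℕ) : Prop :=
  ∀ (B : AbVar p Ω), ∀ x ∈ T.gr X i, ∀ b ∈ TC.deg B (i - 2 * c),
    IsGenTate T X B (i - c) (times T X B x b) → times T X B x b ∈ Z.C X B

/-- **A class is dominated by abelian varieties** if its products with classes of degree `i - 2 c` on
abelian varieties belong to the system when they are Tate classes. -/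
theorem dom_of_tateAt [IsAlgClosed Ω] {T : Cohomology p Ω} (Z : Cycles T) (X : T.V) {i c : ℕ}
    (hc : 2 * c ≤ i) (h : TateAt Z X i c) {x : T.H X} (hx : x ∈ T.gr X i) {a : Ω} {k : ℕ}
    (hk : ((T.F X - a • LinearMap.id) ^ k : T.H X →ₗ[Ω] T.H X) x = 0)
    (ha : IsPure p (T.m X * i) a) (hint : IsIntegral ℤ (a / (p : Ω) ^ (T.m X * c))) :
    IsDom Z X x := by
  have hp : (p : Ω) ≠ 0 := Nat.cast_ne_zero.2 (Fact.out : p.Prime).ne_zero
  refine ⟨i, k, i - c, a, hx, hk, ha, fun t ht => ?_⟩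
  have hm := T.m_pos X
  obtain ⟨w, e, he, hwl, hw, hrel'⟩ := exists_complement ht (isPure_div hc ha hint)
  have hrel : (a ^ t * w.prod) ^ e = ((p : Ω) ^ (T.m X * t * (i - c))) ^ e := by
    have e1 : a ^ t * w.prod = (p : Ω) ^ (T.m X * c * t) *
        ((a / (p : Ω) ^ (T.m X * c)) ^ t * w.prod) := by
      rw [div_pow, ← pow_mul, ← mul_assoc, mul_div_cancel₀ _ (pow_ne_zero _ hp)]
    rw [e1, mul_pow, hrel', ← mul_pow, ← pow_add]
    congr 2
    have e2 : i - c = c + (i - 2 * c) := by omega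
    rw [e2]
    ring
  have hmt : 0 < T.m X * t := Nat.mul_pos hm ht
  obtain ⟨B, N, g, b, Y, R, hBm, -, hY, hR, hYw, hP, hN, hprod⟩ :=
    exists_basis_cover (p := p) hmt (W := {y : Ω | IsWeil p (T.m X * t) y})
      (fun y hy z hz => (hy : IsWeil p (T.m X * t) y).isIsotypic.isWeil hz) w
      (fun y hy => ⟨hw y hy, hw y hy⟩)
  have hYl : Y.length = i - 2 * c := by rw [← hwl, ← hYw, List.length_map]
  refine ⟨B, N, g, e, b, Y, R, hBm, hY, hR, hP, hN, he, by omega, by rw [hYw, hrel], ?_, ?_⟩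
  · rw [hYw, hprod, hBm, ← pow_mul]
  · refine h B x hx _ ?_ ?_
    · have h1 := wedge_mem (R := Ω) (Y.map Prod.snd)
      rw [List.length_map, hYl] at h1
      exact h1
    · refine ⟨t * e, e, k, Nat.mul_pos ht he, he, by rw [hBm]; ring, ?_⟩
      let K : ExteriorAlgebra Ω B.H →ₗ[Ω] ExteriorAlgebra Ω B.H :=
        (ExteriorAlgebra.map (B.F ^ e)).toLinearMap
      have h2 : K (wedge (Y.map Prod.snd)) = (w.prod ^ e) • wedge (R := Ω) (Y.map Prod.snd) := by
        rw [← hYw]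
        exact map_pow_wedge_eigen B.F Y hY e
      have h3 := gen_tmul_zero (T.F X ^ (t * e)) K h2 (gen_pow (T.F X) (t * e) hk)
      have h4 : a ^ (t * e) * w.prod ^ e = (p : Ω) ^ (T.m X * (t * e) * (i - c)) := by
        rw [pow_mul, ← mul_pow, hrel, ← pow_mul]
        congr 1
        ring
      rw [h4] at h3
      exact h3

end Pool.Agent.V8H94.TW
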