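import Pool.Agent.V8H94.TW.Dom
import Pool.Agent.V8H94.TW.Defs
import Pool.Agent.V8H94.TV.Conv
import Pool.Agent.V8H77.VT.SemiPub

/-!
# The main theorem with the slopes of Frobenius
-/

set_option autoImplicit false

namespace Pool.Agent.V8H94.TW

open Module TensorProduct Pool.Agent.V8H94.CT

variable {p : ℕ} [Fact p.Prime] {Ω : Type} [Field Ω] [CharZero Ω]

section

open Pool.Agent.V8H94.TC Pool.Agent.V8H94.VT

/-- The cohomology of `X` is dominated by abelian varieties if it is so up to the middle degree. -/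
theorem span_dom' [IsAlgClosed Ω] {T : Cohomology p Ω} (Z : Cycles T) (X : T.V)
    (hpure : ∀ (i : ℕ) (a : Ω), IsPure p (T.m X * i) a →
      IsPure p (T.m X * (i + 2)) ((p : Ω) ^ T.m X * a))
    (h : ∀ i ≤ T.dim X, ∀ x ∈ T.gr X i, ∀ (a : Ω) (k : ℕ),
      ((T.F X - a • LinearMap.id) ^ k : T.H X →ₗ[Ω] T.H X) x = 0 →
        (∃ y ∈ T.gr X i, y ≠ 0 ∧ T.F X y = a • y) → IsDom Z X x) :
    Submodule.span Ω {x | IsDom Z X x} = ⊤ := by
  set S := Submodule.span Ω {x | IsDom Z X x} with hS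
  have hlow : ∀ i ≤ T.dim X, T.gr X i ≤ S := by
    intro i hi
    refine (le_span_gen (T.F X) (T.gr X i) (T.F_gr X i)).trans ?_
    refine Submodule.span_mono ?_
    rintro x ⟨hx, a, k, hk, y, hy, hy0, hya⟩
    exact h i hi x hx a k hk ⟨y, hy, hy0, hya⟩
  have hL : ∀ x ∈ S, T.L X x ∈ S := by
    intro x hx
    have h1 : S ≤ S.comap (T.L X) := by
      rw [hS]
      refine Submodule.span_le.2 ?_
      intro x hx
      exact Submodule.subset_span (IsDom.L hx hpure)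
    exact h1 hx
  have hLn : ∀ (n : ℕ), ∀ x ∈ S, (T.L X ^ n) x ∈ S := by
    intro n
    induction n with
    | zero => intro x hx; exact hx
    | succ n ih =>
      intro x hx
      rw [pow_succ', Module.End.mul_apply]
      exact hL _ (ih x hx)
  rw [eq_top_iff, ← T.span_gr X]
  refine iSup_le fun j => ?_
  rcases Nat.le_total j (T.dim X) with hj | hj
  · exact hlow j hj
  · obtain ⟨i, rfl⟩ := Nat.exists_eq_add_of_le hj
    intro y hy
    obtain ⟨x, hx, rfl⟩ := T.lefschetz X i y hy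
    exact hLn i x (hlow _ (Nat.sub_le _ _) hx)

theorem main_VT [IsAlgClosed Ω] {T : Cohomology p Ω} (Z : Cycles T) {W : Set T.V}
    (c : T.V → ℕ → ℕ) (hc : ∀ X ∈ W, ∀ i ≤ T.dim X, 2 * c X i ≤ i)
    (hslope : ∀ X ∈ W, ∀ i ≤ T.dim X, ∀ y ∈ T.gr X i, ∀ a : Ω, y ≠ 0 → T.F X y = a • y →
      IsIntegral ℤ (a / (p : Ω) ^ (T.m X * c X i)))
    (hdiv : ∀ A : AbVar p Ω, TC.TateHolds Z.S A 1)
    (hlow : ∀ X ∈ W, ∀ i ≤ 1, TateInDegree Z X i) (h1 : TateInDegreeTwo Z.S)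
    (h2 : ∀ X ∈ W, ∀ i, 2 ≤ i → i ≤ T.dim X → TateAt Z X i (c X i)) :
    (∀ A : AbVar p Ω, TC.GeneralisedTate Z.S A ∧ ∀ r, TC.TateHolds Z.S A r) ∧
      ∀ X, IsProduct T W X → ∀ A : AbVar p Ω, StrongTate Z X A ∧ GeneralisedTate₂ Z X A := by
  have hAV := tateHolds_all hdiv h1
  refine ⟨hAV, fun X hX => ?_⟩
  have hspan : Submodule.span Ω {x | IsDom Z X x} = ⊤ := by
    refine span_dom_product Z (fun X hX => ?_) (fun X Y x y hx hy => IsDom.ext hx hy) hX
    refine span_dom' Z X (fun i a ha => Pool.Agent.V8H77.VT.isPure_step _ i a ha)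
      fun i hi x hx a k hk hy => ?_
    obtain ⟨y, hy, hy0, hya⟩ := hy
    have ha := T.pure X i y hy a hy0 hya
    rcases Nat.lt_or_ge i 2 with h | h
    · exact Pool.Agent.V8H77.VT.dom_of_tate Z X (hlow X hX i (by omega)) hx hk ha
    · exact dom_of_tateAt Z X (hc X hX i hi) (h2 X hX i h hi) hx hk ha
        (hslope X hX i hi y hy a hy0 hya)
  have hst : ∀ A, StrongTate Z X A := strongTate_of_span Z (fun A => (hAV A).2) hspan
    (fun i r s s' a A U hs hs' hss ha hU hU0 hrel =>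
      Pool.Agent.V8H77.VT.weight_of_relation (T.m_pos X) i r s s' a A U hs hs' hss ha hU hU0
        hrel)
  exact fun A => ⟨hst A, generalisedTate₂_of_strong hst
    (fun m s' j a _ hs' ha => Pool.Agent.V8H77.VT.exists_factors hs' ha) A⟩

end

section

open Pool.Agent.V8H94.TC Pool.Agent.V8H94.TV

theorem tateAt_iff {H : Cohomology p Ω} (Z : Cycles p H.T) (X : H.T.V) (i c : ℕ) :
    TateInDegrees Z X i (i - 2 * c) (i - c) ↔ TateAt Z.toVT X i c := by
  constructor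
  · intro h B x hx b hb ht
    exact h B x hx b hb ((isGenTate_iff H X B (i - c) _).2 ht)
  · intro h B x hx b hb ht
    exact h B x hx b hb ((isGenTate_iff H X B (i - c) _).1 ht)

/-- **The main theorem.** -/
theorem main [IsAlgClosed Ω] (H : Cohomology p Ω) (Z : Cycles p H.T) (W : Set H.T.V)
    (c : H.T.V → ℕ → ℕ)
    (hc : ∀ X ∈ W, ∀ i ≤ H.T.dim X, 2 * c X i ≤ i ∧ SlopesAtLeast p H.T X i (c X i))
    (hdiv : ∀ A : AbVar p Ω, TateHolds Z.S A 1)
    (hlow : ∀ X ∈ W, ∀ i ≤ 1, TateInDegrees Z X i i i) :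
    ((∀ A : AbVar p Ω, GeneralisedTate Z.S A ∧ ∀ r, TateHolds Z.S A r) ∧
      ∀ X, IsProduct H.T W X → ∀ A : AbVar p Ω, StrongTate Z X A ∧ GeneralisedTate₂ Z X A) ↔
    (TateInDegreeTwo Z.S ∧ ∀ X ∈ W, ∀ i, 2 ≤ i → i ≤ H.T.dim X →
      TateInDegrees Z X i (i - 2 * c X i) (i - c X i)) := by
  constructor
  · rintro ⟨h1, h2⟩
    refine ⟨fun A B hm _ _ _ _ ht => (h1 (A.prod B hm)).2 2 _ ht, fun X hX i _ _ => ?_⟩
    intro B x _ b _ ht
    exact (h2 X (IsProduct.of X hX) B).1 _ _ ht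
  · rintro ⟨h1, h2⟩
    have hlow' : ∀ X ∈ W, ∀ i ≤ 1, VT.TateInDegree Z.toVT X i := by
      intro X hX i hi B x hx b hb ht
      exact hlow X hX i hi B x hx b hb ((isGenTate_iff H X B i _).2 ht)
    obtain ⟨h3, h4⟩ := main_VT Z.toVT (W := W) c (fun X hX i hi => (hc X hX i hi).1)
      (fun X hX i hi y hy a hy0 hya => (hc X hX i hi).2 y hy a hy0 (by
        rw [TV.frob, pow_one]; exact hya)) hdiv hlow' h1
      (fun X hX i hi hi' => (tateAt_iff Z X i _).1 (h2 X hX i hi hi'))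
    refine ⟨h3, fun X hX A => ?_⟩
    obtain ⟨h5, h6⟩ := h4 X (isProduct_of hX) A
    exact ⟨fun r t ht => h5 r t ((isGenTate_iff H X A r t).1 ht), fun j r t ht =>
      isImage₂_of (h6 j r t ((isEffective₂_iff H X A j r t).1 ht))⟩

/-- The strong Tate conjecture is the Tate conjecture and semisimplicity of Frobenius. -/
theorem strong_iff [IsAlgClosed Ω] {H : Cohomology p Ω} {Z : Cycles p H.T} (hcyc : AreTate Z)
    (X : H.T.V) : (∀ A, StrongTate Z X A) ↔ (∀ A, Tate₂ Z X A) ∧ IsSemisimple H.T X :=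
  V8H77.VT.strong_iff (Z := Z) (fun Y A r t ht ht' => hcyc Y A r t ht ht') X

end

end Pool.Agent.V8H94.TW
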